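import Pool.Agent.N708.MX.Stm3
import Pool.Agent.N708.MX.Bas

/-!
# Project MX (helper708), part NOH: there is no nonzero `*`-homomorphism from `C^*_r(G)` to
`∏ M / ⨁ M` (helper717)
-/

set_option autoImplicit false
set_option linter.unusedSectionVars false

namespace Pool.Agent.N717.MX

open Filter Topology
open Pool.Agent.N708.MX
open scoped InnerProductSpace

noncomputable section

/-! ### asymptotic calculus -/

section asy

variable {d : ℕ → ℕ}

/-- asymptotic equality -/
def AE (a b : ∀ n, Matrix (Fin (d n)) (Fin (d n)) ℂ) : Prop :=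
  Tendsto (fun n => opn (a n - b n)) atTop (𝓝 0)

/-- boundedness -/
def BD (a : ∀ n, Matrix (Fin (d n)) (Fin (d n)) ℂ) : Prop := ∃ C : ℝ, ∀ n, opn (a n) ≤ C

variable {a b c a' b' : ∀ n, Matrix (Fin (d n)) (Fin (d n)) ℂ}

theorem AE.symm' (h : AE a b) : AE b a := by
  unfold AE at h ⊢
  refine h.congr fun n => ?_
  exact opn_sub_comm _ _

theorem AE.trans' (h : AE a b) (h' : AE b c) : AE a c := by
  unfold AE at h h' ⊢
  refine squeeze_zero (fun n => opn_nonneg _) (fun n => opn_sub_sub_le _ (b n) _) ?_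
  simpa using h.add h'

theorem AE.mul' (h : AE a a') (h' : AE b b') (hb : BD b) (ha : BD a') :
    AE (fun n => a n * b n) (fun n => a' n * b' n) := by
  obtain ⟨C, hC⟩ := hb
  obtain ⟨C', hC'⟩ := ha
  unfold AE at h h' ⊢
  refine squeeze_zero (fun n => opn_nonneg _) (fun n => ?_)
    (by simpa using (h.mul_const C).add (h'.const_mul C'))
  have h1 : a n * b n - a' n * b' n = (a n - a' n) * b n + a' n * (b n - b' n) := by
    noncomm_ring
  rw [h1]
  refine (opn_add_le _ _).trans (add_le_add ?_ ?_)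
  · exact (opn_mul_le _ _).trans (mul_le_mul_of_nonneg_left (hC n) (opn_nonneg _))
  · exact (opn_mul_le _ _).trans (mul_le_mul_of_nonneg_right (hC' n) (opn_nonneg _))

theorem opn_one_le (m : ℕ) : opn (1 : Matrix (Fin m) (Fin m) ℂ) ≤ 1 :=
  opn_unitary_le (1 : Matrix.unitaryGroup (Fin m) ℂ)

end asy

/-! ### asymptotic homomorphisms of algebras -/

section hom

variable {A : Type} [Ring A] [Algebra ℂ A] [Star A] {d : ℕ → ℕ}
  {θ : ∀ n, A → Matrix (Fin (d n)) (Fin (d n)) ℂ}

/-- `θ a + (1 - θ 1)` -/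
def TT (θ : ∀ n, A → Matrix (Fin (d n)) (Fin (d n)) ℂ) (a : A) (n : ℕ) :
    Matrix (Fin (d n)) (Fin (d n)) ℂ := θ n a + (1 - θ n 1)

theorem TT_bdd (h : AsHom d θ) (a : A) : BD (TT θ a) := by
  obtain ⟨C, hC⟩ := h.bdd a
  obtain ⟨D, hD⟩ := h.bdd 1
  refine ⟨C + (1 + D), fun n => ?_⟩
  refine (opn_add_le _ _).trans (add_le_add (hC n) ?_)
  exact (opn_sub_le _ _).trans (add_le_add (opn_one_le _) (hD n))

theorem TT_one : TT θ (1 : A) = fun _ => 1 := by
  funext n
  unfold TT
  abel

theorem TT_mul (h : AsHom d θ) (a b : A) :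
    AE (fun n => TT θ a n * TT θ b n) (TT θ (a * b)) := by
  unfold AE
  have h1 := h.mul a b
  have h2 := h.mul a 1
  have h3 := h.mul 1 b
  have h4 := h.mul 1 1
  rw [mul_one] at h2 h4
  rw [one_mul] at h3
  refine squeeze_zero (fun n => opn_nonneg _) (fun n => ?_)
    (by simpa using ((h1.add h2).add h3).add h4)
  have h5 : TT θ a n * TT θ b n - TT θ (a * b) n =
      -(θ n (a * b) - θ n a * θ n b) + (θ n a - θ n a * θ n 1) + (θ n b - θ n 1 * θ n b) +
        -(θ n 1 - θ n 1 * θ n 1) := by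
    unfold TT
    noncomm_ring
  rw [h5]
  refine (opn_add_le _ _).trans (add_le_add ((opn_add_le _ _).trans
    (add_le_add ((opn_add_le _ _).trans (add_le_add ?_ le_rfl)) le_rfl)) ?_)
  · rw [opn_neg]
  · rw [opn_neg]

theorem TT_star (h : AsHom d θ) (hs : star (1 : A) = 1) (a : A) :
    AE (fun n => (TT θ a n).conjTranspose) (TT θ (star a)) := by
  unfold AE
  have h1 := h.star a
  have h2 := h.star 1
  rw [hs] at h2
  refine squeeze_zero (fun n => opn_nonneg _) (fun n => ?_) (by simpa using h1.add h2)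
  have h5 : (TT θ a n).conjTranspose - TT θ (star a) n =
      -(θ n (star a) - (θ n a).conjTranspose) + (θ n 1 - (θ n 1).conjTranspose) := by
    unfold TT
    rw [Matrix.conjTranspose_add, Matrix.conjTranspose_sub, Matrix.conjTranspose_one]
    abel
  rw [h5]
  refine (opn_add_le _ _).trans (add_le_add ?_ le_rfl)
  rw [opn_neg]

/-- the kernel -/
def Ker (θ : ∀ n, A → Matrix (Fin (d n)) (Fin (d n)) ℂ) (a : A) : Prop :=
  Tendsto (fun n => opn (θ n a)) atTop (𝓝 0)

theorem Ker.zero (h : AsHom d θ) : Ker θ (0 : A) := by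
  have h1 := h.smul 0 (0 : A)
  simp only [zero_smul, sub_zero] at h1
  exact h1

theorem Ker.add (h : AsHom d θ) {a b : A} (ha : Ker θ a) (hb : Ker θ b) : Ker θ (a + b) := by
  unfold Ker at ha hb ⊢
  refine squeeze_zero (fun n => opn_nonneg _) (fun n => ?_)
    (by simpa using ((h.add a b).add ha).add hb)
  have h1 : θ n (a + b) = (θ n (a + b) - (θ n a + θ n b)) + θ n a + θ n b := by abel
  conv_lhs => rw [h1]
  exact (opn_add_le _ _).trans (add_le_add (opn_add_le _ _) le_rfl)

theorem Ker.sum (h : AsHom d θ) {ι : Type} (s : Finset ι) (a : ι → A)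
    (ha : ∀ i ∈ s, Ker θ (a i)) : Ker θ (∑ i ∈ s, a i) := by
  classical
  induction s using Finset.induction_on with
  | empty =>
    rw [Finset.sum_empty]
    exact Ker.zero h
  | insert i s hi ih =>
    rw [Finset.sum_insert hi]
    exact (ha i (Finset.mem_insert_self _ _)).add h
      (ih fun j hj => ha j (Finset.mem_insert_of_mem hj))

theorem Ker.mul_left (h : AsHom d θ) (a : A) {b : A} (hb : Ker θ b) : Ker θ (a * b) := by
  obtain ⟨C, hC⟩ := h.bdd a
  unfold Ker at hb ⊢
  refine squeeze_zero (fun n => opn_nonneg _) (fun n => ?_)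
    (by simpa using (h.mul a b).add (hb.const_mul C))
  have h1 : θ n (a * b) = (θ n (a * b) - θ n a * θ n b) + θ n a * θ n b := by abel
  conv_lhs => rw [h1]
  refine (opn_add_le _ _).trans (add_le_add le_rfl ?_)
  exact (opn_mul_le _ _).trans (mul_le_mul_of_nonneg_right (hC n) (opn_nonneg _))

theorem Ker.mul_right (h : AsHom d θ) {a : A} (ha : Ker θ a) (b : A) : Ker θ (a * b) := by
  obtain ⟨C, hC⟩ := h.bdd b
  unfold Ker at ha ⊢
  refine squeeze_zero (fun n => opn_nonneg _) (fun n => ?_)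
    (by simpa using (h.mul a b).add (ha.mul_const C))
  have h1 : θ n (a * b) = (θ n (a * b) - θ n a * θ n b) + θ n a * θ n b := by abel
  conv_lhs => rw [h1]
  refine (opn_add_le _ _).trans (add_le_add le_rfl ?_)
  exact (opn_mul_le _ _).trans (mul_le_mul_of_nonneg_left (hC n) (opn_nonneg _))

theorem Ker.one_sub (h : AsHom d θ) {a : A} (ha : AE (TT θ a) (fun _ => 1)) :
    Ker θ (1 - a) := by
  have h1 := h.add 1 ((-1 : ℂ) • a)
  have h2 := h.smul (-1) a
  have h5 := (h1.add h2).add ha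
  rw [add_zero, add_zero] at h5
  have h3 : (1 : A) - a = 1 + (-1 : ℂ) • a := by
    rw [neg_one_smul, sub_eq_add_neg]
  refine squeeze_zero (fun n => opn_nonneg _) (fun n => ?_) h5
  have h6 : (-1 : ℂ) • θ n a = -θ n a := neg_one_smul ℂ (θ n a)
  have h4 : θ n (1 - a) = (θ n (1 + (-1 : ℂ) • a) - (θ n 1 + θ n ((-1 : ℂ) • a))) +
      (θ n ((-1 : ℂ) • a) - (-1 : ℂ) • θ n a) + -(TT θ a n - 1) := by
    rw [h3, h6]
    unfold TT
    generalize θ n (1 + (-1 : ℂ) • a) = x1
    generalize θ n ((-1 : ℂ) • a) = x2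
    abel
  rw [h4]
  refine (opn_add_le _ _).trans (add_le_add (opn_add_le _ _) ?_)
  rw [opn_neg]

/-- unitary elements give an asymptotic homomorphism -/
theorem exists_AH (hP : S_POLAR) (h : AsHom d θ) (hs : star (1 : A) = 1) {G : Type} [Group G]
    (u : G → A) (hu1 : ∀ g g', u g * u g' = u (g * g')) (hu2 : ∀ g, star (u g) * u g = 1) :
    ∃ U : ∀ n, G → Matrix.unitaryGroup (Fin (d n)) ℂ, AH atTop d U ∧
      ∀ g, AE (TT θ (u g)) (fun n => (U n g).val) := by
  have h1 : ∀ g, Tendsto (fun n => opn ((TT θ (u g) n).conjTranspose * TT θ (u g) n - 1)) atTop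
      (𝓝 0) := by
    intro g
    have h2 : AE (fun n => (TT θ (u g) n).conjTranspose * TT θ (u g) n) (fun _ => 1) := by
      refine AE.trans' ?_ (?_ : AE (fun n => TT θ (star (u g)) n * TT θ (u g) n) _)
      · refine (TT_star h hs (u g)).mul' ?_ (TT_bdd h _) (TT_bdd h _)
        unfold AE
        simp only [sub_self, opn_zero]
        exact tendsto_const_nhds
      · have h3 := TT_mul h (star (u g)) (u g)
        rw [hu2, TT_one] at h3
        exact h3
    exact h2
  have h2 : ∀ n g, ∃ U : Matrix.unitaryGroup (Fin (d n)) ℂ,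
      opn ((TT θ (u g) n).conjTranspose * TT θ (u g) n - 1) ≤ 1 / 2 →
      opn (TT θ (u g) n - U.val) ≤
        opn ((TT θ (u g) n).conjTranspose * TT θ (u g) n - 1) := by
    intro n g
    by_cases hle : opn ((TT θ (u g) n).conjTranspose * TT θ (u g) n - 1) ≤ 1 / 2
    · obtain ⟨U, hU⟩ := hP (d n) (TT θ (u g) n) _ (opn_nonneg _) hle le_rfl
      exact ⟨U, fun _ => hU⟩
    · exact ⟨1, fun h => absurd h hle⟩
  choose U hU using h2
  have h3 : ∀ g, AE (TT θ (u g)) (fun n => (U n g).val) := by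
    intro g
    unfold AE
    refine squeeze_zero' (Eventually.of_forall fun n => opn_nonneg _) ?_ (h1 g)
    filter_upwards [(h1 g).eventually_le_const (by norm_num : (0 : ℝ) < 1 / 2)] with n hn
    exact hU n g hn
  refine ⟨U, fun g g' => ?_, h3⟩
  have h4 : AE (fun n => (U n (g * g')).val) (fun n => (U n g).val * (U n g').val) := by
    refine (h3 (g * g')).symm'.trans' ?_
    rw [← hu1]
    refine (TT_mul h _ _).symm'.trans' ?_
    exact (h3 g).mul' (h3 g') (TT_bdd h _) ⟨1, fun n => opn_unitary_le _⟩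
  exact h4

end hom

/-! ### the regular representation -/

section reg

variable {G : Type} [Group G]

theorem lam_apply (g : G) (f : Ell G) (x : G) : lam g f x = f (g⁻¹ * x) := rfl

theorem lam_mul (g g' : G) : lam g * lam g' = lam (g * g') := by
  ext f x
  change lam g (lam g' f) x = lam (g * g') f x
  rw [lam_apply, lam_apply, lam_apply, mul_inv_rev, mul_assoc]

theorem lam_one : lam (1 : G) = 1 := by
  ext f x
  change lam (1 : G) f x = f x
  rw [lam_apply, inv_one, one_mul]

theorem lam_star (g : G) : star (lam g) = lam g⁻¹ := by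
  rw [ContinuousLinearMap.star_eq_adjoint]
  refine ((ContinuousLinearMap.eq_adjoint_iff _ _).2 fun x y => ?_).symm
  have h1 : lam g (lam g⁻¹ x) = x := by
    have h2 := congrArg (fun T : Ell G →L[ℂ] Ell G => T x) (lam_mul g g⁻¹)
    rw [mul_inv_cancel, lam_one] at h2
    exact h2
  conv_rhs => rw [← h1]
  exact ((lamI g).inner_map_map (lam g⁻¹ x) y).symm

theorem lam_mem (g : G) : lam g ∈ Cred G :=
  StarSubalgebra.le_topologicalClosure _ (StarAlgebra.subset_adjoin ℂ _ ⟨g, rfl⟩)

/-- `λ_g` as an element of the reduced `C^*`-algebra -/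
def ug (g : G) : Cred G := ⟨lam g, lam_mem g⟩

theorem ug_mul (g g' : G) : ug g * ug g' = ug (g * g') := Subtype.ext (lam_mul g g')

theorem ug_star (g : G) : star (ug g) * ug g = 1 := by
  apply Subtype.ext
  change star (lam g) * lam g = 1
  rw [lam_star, lam_mul, inv_mul_cancel, lam_one]

end reg

theorem t_noh : S_POLAR → S_MAIN → S_NOH := by
  intro hP hM K G _ _ φ ι h k γ hK hγ hD hgap d θ hθ
  obtain ⟨κ, hκ, hgap⟩ := hgap
  obtain ⟨U, hU, hUT⟩ := exists_AH hP hθ (star_one _) (ug (G := G)) ug_mul ug_star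
  have h1 := hM K G φ ι h k γ hK hγ hD atTop d U hU
  have h2 : ∀ a : K, Ker θ (1 - ug (ι a)) := fun a =>
    Ker.one_sub hθ ((hUT (ι a)).trans' (h1 a))
  set b : Fin k → Cred G := fun s => 1 - ug (ι (γ (FreeGroup.of s))) with hb
  set x : Cred G := ∑ s, star (b s) * b s with hx
  have hxK : Ker θ x := Ker.sum hθ _ _ fun s _ => Ker.mul_left hθ _ (h2 _)
  have hxu : IsUnit x := by
    have : IsClosed ((Cred G : StarSubalgebra ℂ (Ell G →L[ℂ] Ell G)) : Set
      (Ell G →L[ℂ] Ell G)) := StarSubalgebra.isClosed_topologicalClosure _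
    rw [← StarSubalgebra.coe_isUnit]
    refine ContinuousLinearMap.isUnit_of_forall_le_norm_inner_map _ (c := ⟨κ, hκ.le⟩) hκ
      fun v => ?_
    have h3 : ⟪(x : Ell G →L[ℂ] Ell G) v, v⟫_ℂ =
        ((∑ s, ‖lam (ι (γ (FreeGroup.of s))) v - v‖ ^ 2 : ℝ) : ℂ) := by
      have h4 : (x : Ell G →L[ℂ] Ell G) v =
          ∑ s, star (b s : Ell G →L[ℂ] Ell G) ((b s : Ell G →L[ℂ] Ell G) v) := by
        rw [hx, AddSubmonoidClass.coe_finsetSum, _root_.sum_apply]
        rfl
      rw [h4, sum_inner]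
      push_cast
      refine Finset.sum_congr rfl fun s _ => ?_
      rw [ContinuousLinearMap.star_eq_adjoint, ContinuousLinearMap.adjoint_inner_left]
      have h5 : (b s : Ell G →L[ℂ] Ell G) v = v - lam (ι (γ (FreeGroup.of s))) v := rfl
      rw [h5, inner_self_eq_norm_sq_to_K, norm_sub_rev]
      norm_cast
    rw [h3, Complex.norm_real, Real.norm_of_nonneg (by positivity)]
    have h4 := hgap v
    change ‖v‖ ^ 2 * κ ≤ _
    rw [mul_comm]
    exact h4
  obtain ⟨z, hz⟩ := hxu.exists_right_inv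
  have h1K : Ker θ 1 := by
    rw [← hz]
    exact Ker.mul_right hθ hxK z
  intro a
  have h3 := Ker.mul_left hθ a h1K
  rw [mul_one] at h3
  exact h3

end

end Pool.Agent.N717.MX
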